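import Pool.Agent.W221.NS.Stm4
import Pool.Agent.W61.MD.FRAME

/-!
# MH-FRAME3: the equations with a force in the moving frame
-/

set_option autoImplicit false

open MeasureTheory Set Metric
open scoped ContDiff Topology

namespace Pool.Agent.W342.MH.FRAME3

open H459R3.NS W221.NS Pool.Agent.W61.MD.FRAME

noncomputable section

/-- slices of the time derivative of a smooth function are smooth -/
theorem dt_slice {F : ℝ → V → ℝ} {S : Set ℝ} (hS : IsOpen S)
    (hF : ContDiffOn ℝ ∞ (fun z : ℝ × V => F z.1 z.2) (S ×ˢ univ)) {t : ℝ}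
    (ht : t ∈ S) : ContDiff ℝ ∞ (fun x => deriv (fun s => F s x) t) := by
  have h1 : ContDiffOn ℝ ∞ (fderiv ℝ (fun z : ℝ × V => F z.1 z.2)) (S ×ˢ univ) :=
    hF.fderiv_of_isOpen (hS.prod isOpen_univ) (by simp)
  have h2 : ContDiffOn ℝ ∞ (fun z : ℝ × V => fderiv ℝ (fun z : ℝ × V => F z.1 z.2) z (1, 0))
      (S ×ˢ univ) := h1.clm_apply contDiffOn_const
  have h3 : ContDiff ℝ ∞ (fun x : V => fderiv ℝ (fun z : ℝ × V => F z.1 z.2) (t, x) (1, 0)) := by
    rw [← contDiffOn_univ]
    exact h2.comp (contDiff_const.prodMk contDiff_id).contDiffOn (fun x _ => ⟨ht, mem_univ _⟩)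
  have e : (fun x => deriv (fun s => F s x) t) =
      fun x : V => fderiv ℝ (fun z : ℝ × V => F z.1 z.2) (t, x) (1, 0) := by
    funext x
    have hmem : S ×ˢ (univ : Set V) ∈ 𝓝 (t, x) :=
      prod_mem_nhds (hS.mem_nhds ht) Filter.univ_mem
    have hd : DifferentiableAt ℝ (fun z : ℝ × V => F z.1 z.2) (t, x) :=
      (hF.contDiffAt hmem).differentiableAt (by simp)
    have hc : HasDerivAt (fun s : ℝ => ((s, x) : ℝ × V)) (1, 0) t :=
      (hasDerivAt_id t).prodMk (hasDerivAt_const t x)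
    have := hd.hasFDerivAt.comp_hasDerivAt t hc
    exact this.deriv
  rw [e]
  exact h3

theorem pdsm {f : V → ℝ} (hf : ContDiff ℝ ∞ f) (j : Fin 3) : ContDiff ℝ ∞ (pd j f) := by
  unfold pd
  exact (hf.fderiv_right (m := ∞) (by simp)).clm_apply contDiff_const

theorem hdiff {f : V → ℝ} (hf : ContDiff ℝ ∞ f) (x : V) : DifferentiableAt ℝ f x :=
  (hf.differentiable (by simp)) x

/-- the derivative of `c f(a + r x)` -/
theorem pd_scale {f : V → ℝ} (hf : ContDiff ℝ ∞ f) (c r : ℝ) (a : V) (j : Fin 3) :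
    pd j (fun x => c * f (a + r • x)) = fun x => (c * r) * pd j f (a + r • x) := by
  funext x
  rw [pd_const_mul (fun x => f (a + r • x)) c x ((hdiff hf _).comp x (by fun_prop)) j,
    pd_affine f a r x (hdiff hf _) j]
  ring

theorem t_FRAME3 : S_FRAME3 := by
  intro T κ E F O u p hF hu r s hr hr1 hs hsT X hX hX' hO
  -- the time interval
  have hτ : ∀ t ∈ Ioo (-1 : ℝ) 0, s + r ^ 2 * t ∈ Ioo (s - r ^ 2) s := by
    intro t ht
    have hr2 : 0 < r ^ 2 := by positivity
    constructor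
    · nlinarith [ht.1]
    · nlinarith [ht.2]
  have hsub : ∀ τ ∈ Ioo (s - r ^ 2) s, τ ∈ Ioo 0 T := by
    intro τ h
    exact ⟨by linarith [h.1], by linarith [h.2]⟩
  have hmemO : ∀ τ ∈ Ioo (s - r ^ 2) s, ∀ x ∈ ball (0 : V) 8, X τ + r • x ∈ O := by
    intro τ h x hx
    apply hO τ h
    rw [mem_ball, dist_eq_norm, add_sub_cancel_left, norm_smul, Real.norm_eq_abs, abs_of_pos hr,
      mul_comm]
    rw [mem_ball, dist_zero_right] at hx
    exact mul_lt_mul_of_pos_right hx hr
  -- smooth components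
  have hU : ∀ i, ContDiffOn ℝ ∞ (fun z : ℝ × V => u z.1 z.2 i) (Ioo 0 T ×ˢ univ) := by
    intro i
    exact (contDiffOn_pi.1 hu.smooth_u) i
  have hP : ContDiffOn ℝ ∞ (fun z : ℝ × V => p z.1 z.2) (Ioo 0 T ×ˢ univ) :=
    hu.smooth_p
  have hopen : IsOpen (Ioo 0 T ×ˢ (univ : Set V)) := isOpen_Ioo.prod isOpen_univ
  have hXi : ∀ i, ContDiffOn ℝ ∞ (fun τ => X τ i) (Ioo (s - r ^ 2) s) := fun i =>
    (contDiffOn_pi.1 hX) i
  have hX1 : ∀ i, ContDiffOn ℝ ∞ (deriv (fun τ => X τ i)) (Ioo (s - r ^ 2) s) := fun i =>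
    (hXi i).deriv_of_isOpen isOpen_Ioo (by simp)
  have hX2 : ∀ i, ContDiffOn ℝ ∞ (deriv (deriv (fun τ => X τ i))) (Ioo (s - r ^ 2) s) := fun i =>
    (hX1 i).deriv_of_isOpen isOpen_Ioo (by simp)
  -- the change of variables
  have hA : ContDiff ℝ ∞ (fun z : ℝ × V => s + r ^ 2 * z.1) := by fun_prop
  have hAm : MapsTo (fun z : ℝ × V => s + r ^ 2 * z.1) (Ioo (-1) 0 ×ˢ univ)
      (Ioo (s - r ^ 2) s) := fun z hz => hτ z.1 hz.1
  have hΨ : ContDiffOn ℝ ∞ (fun z : ℝ × V => (s + r ^ 2 * z.1, X (s + r ^ 2 * z.1) + r • z.2))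
      (Ioo (-1) 0 ×ˢ univ) := by
    refine hA.contDiffOn.prodMk ?_
    exact (hX.comp hA.contDiffOn hAm).add (by fun_prop)
  have hΨm : MapsTo (fun z : ℝ × V => (s + r ^ 2 * z.1, X (s + r ^ 2 * z.1) + r • z.2))
      (Ioo (-1) 0 ×ˢ univ) (Ioo 0 T ×ˢ univ) := fun z hz => ⟨hsub _ (hτ z.1 hz.1), mem_univ _⟩
  -- slices
  have hus : ∀ τ ∈ Ioo 0 T, ∀ i, ContDiff ℝ ∞ (fun y => u τ y i) := fun τ h i =>
    slice_smooth (F := fun z : ℝ × V => u z.1 z.2 i) (hU i) h
  have hps : ∀ τ ∈ Ioo 0 T, ContDiff ℝ ∞ (p τ) := fun τ h =>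
    slice_smooth (F := fun z : ℝ × V => p z.1 z.2) hP h
  -- the residual is smooth in the space variable
  have hres : ∀ τ ∈ Ioo 0 T, ∀ i, ContDiff ℝ ∞ (fun y => res u p τ y i) := by
    intro τ h i
    have h1 : ContDiff ℝ ∞ (fun y => deriv (fun s => u s y i) τ) :=
      dt_slice (F := fun s y => u s y i) isOpen_Ioo (hU i) h
    have h2 : ContDiff ℝ ∞ (fun y => adv (u τ) (fun y => u τ y i) y) := by
      unfold adv
      exact ContDiff.sum fun j _ => (hus τ h j).mul (pdsm (hus τ h i) j)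
    have h3 : ContDiff ℝ ∞ (fun y => lap (fun y => u τ y i) y) := by
      unfold lap
      exact ContDiff.sum fun j _ => pdsm (pdsm (hus τ h i) j) j
    have h4 : ContDiff ℝ ∞ (fun y => pd i (p τ) y) := pdsm (hps τ h) i
    exact ((h1.add h2).sub h3).add h4
  -- first derivatives in the moving frame
  have hpv : ∀ t ∈ Ioo (-1 : ℝ) 0, ∀ i j x, pd j (fun y => frv r s X u t y i) x =
      r ^ 2 * pd j (fun y => u (s + r ^ 2 * t) y i) (X (s + r ^ 2 * t) + r • x) := by
    intro t ht i j x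
    have h1 := hus _ (hsub _ (hτ t ht)) i
    have e1 : (fun y => frv r s X u t y i) = fun y =>
        r * ((fun y => u (s + r ^ 2 * t) y i) (X (s + r ^ 2 * t) + r • y)
          - deriv (fun τ => X τ i) (s + r ^ 2 * t)) := rfl
    rw [e1, pd_const_mul, pd_sub_const, pd_affine _ _ _ _ (hdiff h1 _)]
    · ring
    · refine DifferentiableAt.sub_const ?_ _
      exact (hdiff h1 _).comp x (by fun_prop)
  -- the residual in the moving frame
  have hkey : ∀ t ∈ Ioo (-1 : ℝ) 0, ∀ i, (fun x => res (frv r s X u) (frq r s X p) t x i) =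
      fun x => r ^ 3 * (fun y => res u p (s + r ^ 2 * t) y i) (X (s + r ^ 2 * t) + r • x) := by
    intro t ht i
    funext x
    show res (frv r s X u) (frq r s X p) t x i =
      r ^ 3 * res u p (s + r ^ 2 * t) (X (s + r ^ 2 * t) + r • x) i
    unfold res adv lap
    set τ := s + r ^ 2 * t with hτdef
    have hτ1 : τ ∈ Ioo (s - r ^ 2) s := hτ t ht
    have hτ2 : τ ∈ Ioo 0 T := hsub _ hτ1
    have hui := hus τ hτ2 i
    set Y : V := X τ + r • x with hY
    have hFd : DifferentiableAt ℝ (fun z : ℝ × V => u z.1 z.2 i) (τ, Y) :=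
      ((hU i).contDiffAt (hopen.mem_nhds ⟨hτ2, mem_univ _⟩)).differentiableAt (by simp)
    have hXd : HasDerivAt X (mol r u τ (X τ)) τ := hX' τ hτ1
    have hXc : ∀ j, deriv (fun τ => X τ j) τ = mol r u τ (X τ) j := fun j =>
      ((hasDerivAt_pi.1 hXd) j).deriv
    have hX1d : DifferentiableAt ℝ (deriv (fun τ => X τ i)) τ :=
      ((hX1 i).contDiffAt (isOpen_Ioo.mem_nhds hτ1)).differentiableAt (by simp)
    have hAd : HasDerivAt (fun t' : ℝ => s + r ^ 2 * t') (r ^ 2) t := by
      have := ((hasDerivAt_id t).const_mul (r ^ 2)).const_add s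
      simpa using this
    -- the time derivative
    have hcurve : HasDerivAt (fun t' : ℝ => (s + r ^ 2 * t', X (s + r ^ 2 * t') + r • x))
        (r ^ 2, r ^ 2 • mol r u τ (X τ)) t := by
      refine hAd.prodMk ?_
      have h1 : HasDerivAt (fun t' : ℝ => X (s + r ^ 2 * t')) (r ^ 2 • mol r u τ (X τ)) t :=
        HasDerivAt.scomp t hXd hAd
      exact h1.add_const _
    have hd1 : HasDerivAt (fun t' : ℝ => u (s + r ^ 2 * t') (X (s + r ^ 2 * t') + r • x) i)
        (fderiv ℝ (fun z : ℝ × V => u z.1 z.2 i) (τ, Y) (r ^ 2, r ^ 2 • mol r u τ (X τ))) t := by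
      have h0 : HasFDerivAt (fun z : ℝ × V => u z.1 z.2 i)
          (fderiv ℝ (fun z : ℝ × V => u z.1 z.2 i) (τ, Y))
          ((fun t' : ℝ => (s + r ^ 2 * t', X (s + r ^ 2 * t') + r • x)) t) := hFd.hasFDerivAt
      exact h0.comp_hasDerivAt t hcurve
    rw [total hFd] at hd1
    have hd2 : HasDerivAt (fun t' : ℝ => deriv (fun τ => X τ i) (s + r ^ 2 * t'))
        (deriv (deriv (fun τ => X τ i)) τ * r ^ 2) t := by
      have h0 : HasDerivAt (deriv (fun τ => X τ i)) (deriv (deriv (fun τ => X τ i)) τ)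
          ((fun t' : ℝ => s + r ^ 2 * t') t) := hX1d.hasDerivAt
      exact h0.comp t hAd
    have hd3 : deriv (fun s' => frv r s X u s' x i) t =
        r * ((r ^ 2 * deriv (fun s => u s Y i) τ + ∑ j, (r ^ 2 • mol r u τ (X τ)) j *
          pd j (fun y => u τ y i) Y) - deriv (deriv (fun τ => X τ i)) τ * r ^ 2) :=
      ((hd1.sub hd2).const_mul r).deriv
    -- second derivatives
    have hpv2 : ∀ j, pd j (pd j (fun y => frv r s X u t y i)) x =
        r ^ 3 * pd j (pd j (fun y => u τ y i)) Y := by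
      intro j
      have e1 : pd j (fun y => frv r s X u t y i) = fun x =>
          r ^ 2 * (pd j (fun y => u τ y i)) (X τ + r • x) := funext fun x => hpv t ht i j x
      rw [e1, pd_scale (pdsm hui j)]
      ring
    -- the pressure
    have hpq : pd i (frq r s X p t) x = r ^ 3 * pd i (p τ) Y +
        r ^ 3 * deriv (deriv (fun τ => X τ i)) τ := by
      have h1 := hps τ hτ2
      have e1 : frq r s X p t = fun y => r ^ 2 * (p τ) (X τ + r • y) +
          ∑ i, (fun i => r ^ 3 * deriv (deriv (fun τ => X τ i)) τ) i * y i := rfl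
      rw [e1, pd_add, pd_const_mul, pd_affine _ _ _ _ (hdiff h1 _), pd_lin]
      · ring
      · exact (hdiff h1 _).comp x (by fun_prop)
      · exact ((hdiff h1 _).comp x (by fun_prop)).const_mul _
      · fun_prop
    have e5 : ∑ j, (r ^ 2 • mol r u τ (X τ)) j * pd j (fun y => u τ y i) Y =
        r ^ 2 * ∑ j, mol r u τ (X τ) j * pd j (fun y => u τ y i) Y := by
      rw [Finset.mul_sum]
      refine Finset.sum_congr rfl fun j _ => ?_
      rw [Pi.smul_apply, smul_eq_mul]
      ring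
    have e6 : ∑ j, frv r s X u t x j * (r ^ 2 * pd j (fun y => u (s + r ^ 2 * t) y i)
        (X (s + r ^ 2 * t) + r • x)) = r ^ 3 * ∑ j, u τ Y j * pd j (fun y => u τ y i) Y -
        r ^ 3 * ∑ j, mol r u τ (X τ) j * pd j (fun y => u τ y i) Y := by
      rw [Finset.mul_sum, Finset.mul_sum, ← Finset.sum_sub_distrib]
      refine Finset.sum_congr rfl fun j _ => ?_
      have e7 : frv r s X u t x j = r * (u τ Y j - mol r u τ (X τ) j) := by
        show r * (u τ Y j - deriv (fun τ => X τ j) τ) = _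
        rw [hXc]
      rw [e7]
      ring
    have e8 : ∑ j, frv r s X u t x j * pd j (fun y => frv r s X u t y i) x =
        r ^ 3 * ∑ j, u τ Y j * pd j (fun y => u τ y i) Y -
        r ^ 3 * ∑ j, mol r u τ (X τ) j * pd j (fun y => u τ y i) Y := by
      rw [← e6]
      exact Finset.sum_congr rfl fun j _ => by rw [hpv t ht]
    have e9 : ∑ j, pd j (pd j (fun y => frv r s X u t y i)) x =
        r ^ 3 * ∑ j, pd j (pd j (fun y => u τ y i)) Y := by
      rw [Finset.mul_sum]
      exact Finset.sum_congr rfl fun j _ => hpv2 j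
    rw [hd3, hpq, e8, e9, e5]
    ring
  refine ⟨?_, ?_, ?_, ?_, ?_⟩
  · -- smoothness of v
    rw [contDiffOn_pi]
    intro i
    have h1 := (hU i).comp hΨ hΨm
    have h2 := (hX1 i).comp hA.contDiffOn hAm
    exact contDiffOn_const.mul (h1.sub h2)
  · -- smoothness of q
    have h1 := hP.comp hΨ hΨm
    have h2 : ∀ i, ContDiffOn ℝ ∞ (fun z : ℝ × V =>
        r ^ 3 * deriv (deriv (fun τ => X τ i)) (s + r ^ 2 * z.1) * z.2 i)
        (Ioo (-1) 0 ×ˢ univ) := by
      intro i
      have h3 := (hX2 i).comp hA.contDiffOn hAm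
      refine (contDiffOn_const.mul h3).mul ?_
      fun_prop
    exact (contDiffOn_const.mul h1).add (ContDiffOn.sum fun i _ => h2 i)
  · -- divergence
    intro t ht x hx
    unfold dv
    simp only [hpv t ht]
    have hd := hu.divfree _ (hsub _ (hτ t ht)) _ (hmemO _ (hτ t ht) x hx)
    unfold dv at hd
    rw [← Finset.mul_sum, hd, mul_zero]
  · -- the force
    intro t ht x hx i
    have hτ2 : s + r ^ 2 * t ∈ Ioo 0 T := hsub _ (hτ t ht)
    have hsm := hres _ hτ2 i
    obtain ⟨b0, b1, b2, b3⟩ := hu.force _ hτ2 _ (hmemO _ (hτ t ht) x hx) i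
    have hr3 : 0 < r ^ 3 := by positivity
    -- the bound for `c g` when `0 ≤ c ≤ r ^ 3`
    have hb : ∀ c g : ℝ, 0 ≤ c → c ≤ r ^ 3 → |g| ≤ F → |c * g| ≤ r ^ 3 * F := by
      intro c g h0 h1 h2
      rw [abs_mul, abs_of_nonneg h0]
      exact mul_le_mul h1 h2 (abs_nonneg _) hr3.le
    have hc1 : r ^ 3 * r ≤ r ^ 3 := mul_le_of_le_one_right hr3.le hr1
    have hc2 : r ^ 3 * r * r ≤ r ^ 3 := (mul_le_of_le_one_right (by positivity) hr1).trans hc1
    have hc3 : r ^ 3 * r * r * r ≤ r ^ 3 :=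
      (mul_le_of_le_one_right (by positivity) hr1).trans hc2
    have k0 := hkey t ht i
    have k1 : ∀ j, pd j (fun y => res (frv r s X u) (frq r s X p) t y i) =
        fun x => (r ^ 3 * r) * pd j (fun y => res u p (s + r ^ 2 * t) y i)
          (X (s + r ^ 2 * t) + r • x) := by
      intro j
      rw [k0]
      exact pd_scale hsm _ _ _ _
    have k2 : ∀ j k, pd j (pd k (fun y => res (frv r s X u) (frq r s X p) t y i)) =
        fun x => (r ^ 3 * r * r) * pd j (pd k (fun y => res u p (s + r ^ 2 * t) y i))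
          (X (s + r ^ 2 * t) + r • x) := by
      intro j k
      rw [k1]
      exact pd_scale (pdsm hsm k) _ _ _ _
    have k3 : ∀ j k l, pd j (pd k (pd l (fun y => res (frv r s X u) (frq r s X p) t y i))) =
        fun x => (r ^ 3 * r * r * r) *
          pd j (pd k (pd l (fun y => res u p (s + r ^ 2 * t) y i)))
          (X (s + r ^ 2 * t) + r • x) := by
      intro j k l
      rw [k2]
      exact pd_scale (pdsm (pdsm hsm l) k) _ _ _ _
    refine ⟨?_, ?_, ?_, ?_⟩
    · have := congrFun k0 x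
      simp only at this
      rw [this]
      exact hb _ _ hr3.le le_rfl b0
    · intro j
      rw [k1]
      exact hb _ _ (by positivity) hc1 (b1 j)
    · intro j k
      rw [k2]
      exact hb _ _ (by positivity) hc2 (b2 j k)
    · intro j k l
      rw [k3]
      exact hb _ _ (by positivity) hc3 (b3 j k l)
  · -- mean
    intro t ht i
    set τ := s + r ^ 2 * t with hτdef
    have hτ1 : τ ∈ Ioo (s - r ^ 2) s := hτ t ht
    have hτ2 : τ ∈ Ioo 0 T := hsub _ hτ1
    have hui := hus τ hτ2 i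
    have hXd : HasDerivAt X (mol r u τ (X τ)) τ := hX' τ hτ1
    have hXc : deriv (fun τ => X τ i) τ = mol r u τ (X τ) i := ((hasDerivAt_pi.1 hXd) i).deriv
    have hc : Continuous (fun z => u τ (X τ + r • z) i) :=
      hui.continuous.comp (by fun_prop)
    have i1 : Integrable (fun z => th z * u τ (X τ + r • z) i) := by
      refine Continuous.integrable_of_hasCompactSupport (th_cont.mul hc) ?_
      exact th_supp.mul_right
    have i2 : Integrable th := th_cont.integrable_of_hasCompactSupport th_supp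
    have e1 : ∀ z, th z * frv r s X u t z i =
        r * (th z * u τ (X τ + r • z) i) - (r * mol r u τ (X τ) i) * th z := by
      intro z
      show th z * (r * (u τ (X τ + r • z) i - deriv (fun τ => X τ i) τ)) = _
      rw [hXc]
      ring
    simp only [e1]
    rw [integral_sub (i1.const_mul r) (i2.const_mul _), integral_const_mul, integral_const_mul,
      th_int]
    show r * mol r u τ (X τ) i - _ = 0
    ring

end

end Pool.Agent.W342.MH.FRAME3
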